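import Pool.Agent.H293.CW.Data

set_option autoImplicit false

/-! Finite checks for the tables, evaluated by the kernel. -/

namespace Pool.Agent.H293.CW

def Tr.mem : Tr → ℕ → Bool
  | .e, _ => false
  | .n l x r, y => bif Nat.beq y x then true else bif Nat.ble y x then l.mem y else r.mem y

def memB : List ℕ → ℕ → Bool
  | [], _ => false
  | a :: l, y => bif Nat.beq a y then true else memB l y

def anyL (x : ℕ) : List ℕ → Bool
  | [] => false
  | C :: l => bif Nat.beq (Nat.land C x) C then true else anyL x l

/-- exchange the entries at the positions `t`, `t + 1` -/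
def swapAt {α : Type} : ℕ → List α → List α
  | 0, a :: b :: l => b :: a :: l
  | t + 1, a :: l => a :: swapAt t l
  | _, l => l

/-- two lists of colours are equal up to renaming the colours -/
def sameT (p p' : List (Fin 5)) : Bool :=
  (p.length == p'.length) &&
    (p.zip p').all fun x => (p.zip p').all fun y => (x.1 == y.1) == (x.2 == y.2)

/-- the number with given binary digits -/
def mk : List Bool → ℕ
  | [] => 0
  | b :: l => 2 * mk l + b.toNat

def swM : List ℕ → ℕ → ℕ
  | [], _ => 0
  | i :: l, M => 2 * swM l M + (M >>> i) % 2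

/-- the union of the rows whose index is a digit of `B` -/
def comb : List ℕ → ℕ → ℕ
  | [], _ => 0
  | r :: rs, B => bif Nat.beq (B % 2) 1 then Nat.lor r (comb rs (B / 2)) else comb rs (B / 2)

def rowsOf (tb : List (List (List (ℕ × List (Fin 5))))) (A : ℕ) : List ℕ :=
  tb.map fun qs => mk (qs.map fun es => es.any fun e => A.testBit e.1)

/-- the swap tables describe the action on the patterns -/
def swOK (k : ℕ) : Bool :=
  ((sw k).length == k - 1) && (List.range (k - 1)).all fun t =>
    (((sw k).getD t []).length == (T k).length) && (List.range (T k).length).all fun i =>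
      sameT (swapAt t ((T k).getD (((sw k).getD t []).getD i 0) [])) ((T k).getD i [])

/-- the sets are closed under transpositions of neighbouring positions -/
def orbOK (k : ℕ) : Bool :=
  (Orb k).all fun A => (sw k).all fun tab => (tr k).mem (swM tab A)

/-- the entries of a gluing table are correct -/
def tbOK (k l j : ℕ) (tb : List (List (List (ℕ × List (Fin 5))))) : Bool :=
  (List.range tb.length).all fun b => (List.range (tb.getD b []).length).all fun q =>
    ((tb.getD b []).getD q []).all fun e =>
      (e.2.length == j) &&
      (sameT ((T k).getD e.1 []) (((T (k + l - 2 * j)).getD q []).take (k - j) ++ e.2) &&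
       sameT ((T l).getD b []) (e.2 ++ ((T (k + l - 2 * j)).getD q []).drop (k - j)))

def anyT (A : ℕ) (al : ℕ → Bool) : ℕ → List (List ℕ) → Bool
  | _, [] => false
  | t, tab :: l => bif (al t && Nat.blt (swM tab A) A) then true else anyT A al (t + 1) l

/-- every set of the orbit is reduced or gets smaller by an allowed transposition -/
def redOK (k : ℕ) (al : ℕ → Bool) (R : List ℕ) : Bool :=
  (Orb k).all fun A => (memB R A) || anyT A al 0 (sw k)

def pairOK (m : ℕ) (tb : List (List (List (ℕ × List (Fin 5))))) (R : List (ℕ × List ℕ))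
    (RB : List ℕ) : Bool :=
  R.all fun A => (rowsOf tb A.1 == A.2) &&
    RB.all fun B => anyL (comb A.2 B) (Orb m)

def closedOK (k : ℕ) (R : List ℕ) : Bool :=
  R.all fun A => (Orb k).all fun B => !(Nat.beq (Nat.land A B) 0)

def trOK (k : ℕ) (l : List ℕ) : Tr → Bool
  | .e => true
  | .n a x b => memB l x && (trOK k l a && trOK k l b)

theorem swOK5 : swOK 5 = true := by decide +kernel
theorem swOK6 : swOK 6 = true := by decide +kernel
theorem swOK7 : swOK 7 = true := by decide +kernel
theorem orbOK5 : orbOK 5 = true := by decide +kernel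
theorem orbOK6 : orbOK 6 = true := by decide +kernel
theorem orbOK7 : orbOK 7 = true := by decide +kernel
theorem tbOK552 : tbOK 5 5 2 tb552 = true := by decide +kernel
theorem tbOK562 : tbOK 5 6 2 tb562 = true := by decide +kernel
theorem tbOK563 : tbOK 5 6 3 tb563 = true := by decide +kernel
theorem tbOK573 : tbOK 5 7 3 tb573 = true := by decide +kernel
theorem tbOK663 : tbOK 6 6 3 tb663 = true := by decide +kernel
theorem tbOK673 : tbOK 6 7 3 tb673 = true := by decide +kernel
theorem tbOK674 : tbOK 6 7 4 tb674 = true := by decide +kernel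
theorem tbOK774 : tbOK 7 7 4 tb774 = true := by decide +kernel
theorem redOK552 : redOK 5 (fun t => !(Nat.beq (t + 1) 3)) (ra552.map Prod.fst) = true := by
  decide +kernel
theorem redOK562 : redOK 5 (fun t => !(Nat.beq (t + 1) 3)) (ra562.map Prod.fst) = true := by
  decide +kernel
theorem redOK563 : redOK 5 (fun t => !(Nat.beq (t + 1) 2)) (ra563.map Prod.fst) = true := by
  decide +kernel
theorem redOK573 : redOK 5 (fun t => !(Nat.beq (t + 1) 2)) (ra573.map Prod.fst) = true := by
  decide +kernel
theorem redOK663 : redOK 6 (fun t => !(Nat.beq (t + 1) 3)) (ra663.map Prod.fst) = true := by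
  decide +kernel
theorem redOK673 : redOK 6 (fun t => !(Nat.beq (t + 1) 3)) (ra673.map Prod.fst) = true := by
  decide +kernel
theorem redOK674 : redOK 6 (fun t => !(Nat.beq (t + 1) 2)) (ra674.map Prod.fst) = true := by
  decide +kernel
theorem redOK774 : redOK 7 (fun t => !(Nat.beq (t + 1) 3)) (ra774.map Prod.fst) = true := by
  decide +kernel
theorem redOKc5 : redOK 5 (fun t => !(Nat.beq (t + 1) 0)) rc5 = true := by decide +kernel
theorem redOKc6 : redOK 6 (fun t => !(Nat.beq (t + 1) 0)) rc6 = true := by decide +kernel
theorem redOKc7 : redOK 7 (fun t => !(Nat.beq (t + 1) 0)) rc7 = true := by decide +kernel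
theorem redOKb52 : redOK 5 (fun t => Nat.ble 2 t) rb52 = true := by decide +kernel
theorem redOKb62 : redOK 6 (fun t => Nat.ble 2 t) rb62 = true := by decide +kernel
theorem redOKb63 : redOK 6 (fun t => Nat.ble 3 t) rb63 = true := by decide +kernel
theorem redOKb73 : redOK 7 (fun t => Nat.ble 3 t) rb73 = true := by decide +kernel
theorem redOKb74 : redOK 7 (fun t => Nat.ble 4 t) rb74 = true := by decide +kernel
theorem pairOK552 : pairOK 6 tb552 ra552 rb52 = true := by decide +kernel
theorem pairOK562 : pairOK 7 tb562 ra562 rb62 = true := by decide +kernel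
theorem pairOK563 : pairOK 5 tb563 ra563 rb63 = true := by decide +kernel
theorem pairOK573 : pairOK 6 tb573 ra573 rb73 = true := by decide +kernel
theorem pairOK663 : pairOK 6 tb663 ra663 rb63 = true := by decide +kernel
theorem pairOK673 : pairOK 7 tb673 ra673 rb73 = true := by decide +kernel
theorem pairOK674 : pairOK 5 tb674 ra674 rb74 = true := by decide +kernel
theorem pairOK774 : pairOK 6 tb774 ra774 rb74 = true := by decide +kernel
theorem closedOK5 : closedOK 5 rc5 = true := by decide +kernel
theorem closedOK6 : closedOK 6 rc6 = true := by decide +kernel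
theorem closedOK7 : closedOK 7 rc7 = true := by decide +kernel
theorem trOK5 : trOK 5 (Orb 5) (tr 5) = true := by decide +kernel
theorem trOK6 : trOK 6 (Orb 6) (tr 6) = true := by decide +kernel
theorem trOK7 : trOK 7 (Orb 7) (tr 7) = true := by decide +kernel

end Pool.Agent.H293.CW
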