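import Mathlib
import Pool.Agent.H293.CW.Check

set_option autoImplicit false

/-! Lists, transpositions and binary digits. -/

namespace Pool.Agent.H293.CW

section swap

variable {α β : Type}

lemma swapAt_map (c : α → β) : ∀ (t : ℕ) (L : List α), (swapAt t L).map c = swapAt t (L.map c)
  | 0, [] => rfl
  | 0, [_] => rfl
  | 0, _ :: _ :: _ => rfl
  | _ + 1, [] => rfl
  | t + 1, a :: l => by
      simp only [swapAt, List.map_cons]
      rw [swapAt_map c t l]

lemma swapAt_perm : ∀ (t : ℕ) (L : List α), (swapAt t L).Perm L
  | 0, [] => List.Perm.refl _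
  | 0, [_] => List.Perm.refl _
  | 0, _ :: _ :: _ => List.Perm.swap _ _ _
  | _ + 1, [] => List.Perm.refl _
  | t + 1, a :: l => (swapAt_perm t l).cons a

lemma swapAt_append_left : ∀ (t : ℕ) (A B : List α), t + 1 < A.length →
    swapAt t (A ++ B) = swapAt t A ++ B
  | 0, a :: b :: l, B, _ => rfl
  | 0, [], B, h => by simp at h
  | 0, [a], B, h => by simp at h
  | t + 1, [], B, h => by simp at h
  | t + 1, a :: l, B, h => by
      simp only [List.cons_append, swapAt]
      rw [swapAt_append_left t l B (by simpa using h)]

lemma swapAt_append_right : ∀ (t : ℕ) (A B : List α), A.length ≤ t →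
    swapAt t (A ++ B) = A ++ swapAt (t - A.length) B
  | t, [], B, _ => by simp
  | 0, a :: l, B, h => by simp at h
  | t + 1, a :: l, B, h => by
      simp only [List.cons_append, swapAt, List.length_cons]
      rw [swapAt_append_right t l B (by simpa using h)]
      congr 3
      omega

def Step (L L' : List α) : Prop := ∃ t, t + 1 < L.length ∧ L' = swapAt t L

lemma perm_steps {L L' : List α} (h : L.Perm L') : Relation.ReflTransGen Step L L' := by
  induction h with
  | nil => exact Relation.ReflTransGen.refl
  | cons x _ ih =>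
      refine Relation.ReflTransGen.lift (p := Step) (fun l => x :: l) ?_ _ _ ih
      rintro a b ⟨t, ht, rfl⟩
      exact ⟨t + 1, by simp only [List.length_cons]; omega, rfl⟩
  | swap x y l => exact Relation.ReflTransGen.single ⟨0, by simp, rfl⟩
  | trans _ _ ih1 ih2 => exact ih1.trans ih2

end swap

/-! ### renaming the colours -/

lemma sameT_perm {p p' : List (Fin 5)} (h : sameT p p' = true) :
    ∃ σ : Equiv.Perm (Fin 5), p.map σ = p' := by
  classical
  unfold sameT at h
  rw [Bool.and_eq_true] at h
  obtain ⟨h1, h2⟩ := h
  have hl : p.length = p'.length := by simpa using h1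
  have h3 : ∀ x ∈ p.zip p', ∀ y ∈ p.zip p', x.1 = y.1 ↔ x.2 = y.2 := by
    intro x hx y hy
    have h4 := (List.all_eq_true.1 ((List.all_eq_true.1 h2) x hx)) y hy
    have h5 : (x.1 == y.1) = (x.2 == y.2) := by simpa using h4
    constructor
    · intro h6
      have : (x.1 == y.1) = true := by simpa using h6
      rw [h5] at this
      simpa using this
    · intro h6
      have : (x.2 == y.2) = true := by simpa using h6
      rw [← h5] at this
      simpa using this
  let D : Fin 5 → Prop := fun a => ∃ x ∈ p.zip p', x.1 = a
  let D' : Fin 5 → Prop := fun b => ∃ x ∈ p.zip p', x.2 = b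
  let φ : {a // D a} → {b // D' b} := fun a => ⟨(a.2.choose).2, a.2.choose, a.2.choose_spec.1, rfl⟩
  have hφ : Function.Bijective φ := by
    constructor
    · intro a b hab
      have h4 : (a.2.choose).2 = (b.2.choose).2 := congrArg Subtype.val hab
      have h5 := (h3 _ a.2.choose_spec.1 _ b.2.choose_spec.1).2 h4
      rw [a.2.choose_spec.2, b.2.choose_spec.2] at h5
      exact Subtype.ext h5
    · rintro ⟨b, x, hx, hb⟩
      have ha : D x.1 := ⟨x, hx, rfl⟩
      refine ⟨⟨x.1, ha⟩, Subtype.ext ?_⟩
      show (ha.choose).2 = b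
      rw [← hb]
      exact (h3 _ ha.choose_spec.1 _ hx).1 ha.choose_spec.2
  let e : {a // D a} ≃ {b // D' b} := Equiv.ofBijective φ hφ
  refine ⟨e.extendSubtype, ?_⟩
  apply List.ext_getElem
  · simp [hl]
  · intro i hi1 hi2
    have hi : i < p.length := by simpa using hi1
    have hmem : (p[i], p'[i]) ∈ p.zip p' := by
      rw [List.mem_iff_getElem]
      exact ⟨i, by simp [List.length_zip, hi, hi2], by simp⟩
    have ha : D p[i] := ⟨_, hmem, rfl⟩
    rw [List.getElem_map, Equiv.extendSubtype_apply_of_mem e _ ha]
    show (ha.choose).2 = p'[i]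
    exact (h3 _ ha.choose_spec.1 _ hmem).1 ha.choose_spec.2

/-! ### binary digits -/

lemma testBit_two_mul_add (y b i : ℕ) (hb : b < 2) :
    (2 * y + b).testBit (i + 1) = y.testBit i := by
  rw [Nat.testBit_succ]
  congr 1
  omega

lemma testBit_two_mul_add_zero (y b : ℕ) (hb : b < 2) :
    (2 * y + b).testBit 0 = decide (b = 1) := by
  rw [Nat.testBit_zero]
  congr 1
  apply propext
  constructor <;> intro h <;> omega

lemma testBit_iff (M a : ℕ) : M.testBit a = decide ((M >>> a) % 2 = 1) := by
  rw [Nat.testBit_eq_decide_div_mod_eq, Nat.shiftRight_eq_div_pow]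

lemma swM_testBit : ∀ (tab : List ℕ) (M i : ℕ), (swM tab M).testBit i = true →
    i < tab.length ∧ M.testBit (tab.getD i 0) = true
  | [], M, i, h => by simp [swM] at h
  | a :: l, M, 0, h => by
      refine ⟨by simp, ?_⟩
      rw [swM, testBit_two_mul_add_zero _ _ (Nat.mod_lt _ (by norm_num))] at h
      simp only [List.getD_cons_zero]
      rw [testBit_iff]
      exact h
  | a :: l, M, i + 1, h => by
      rw [swM, testBit_two_mul_add _ _ _ (Nat.mod_lt _ (by norm_num))] at h
      obtain ⟨h1, h2⟩ := swM_testBit l M i h
      exact ⟨by simpa using h1, by simpa using h2⟩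

lemma mk_testBit : ∀ (l : List Bool) (i : ℕ), (mk l).testBit i = true → l.getD i false = true
  | [], i, h => by simp [mk] at h
  | b :: l, 0, h => by
      rw [mk, testBit_two_mul_add_zero _ _ (by cases b <;> simp)] at h
      cases b
      · simp at h
      · simp
  | b :: l, i + 1, h => by
      rw [mk, testBit_two_mul_add _ _ _ (by cases b <;> simp)] at h
      simpa using mk_testBit l i h

lemma comb_testBit : ∀ (rs : List ℕ) (B q : ℕ), (comb rs B).testBit q = true →
    ∃ i, B.testBit i = true ∧ (rs.getD i 0).testBit q = true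
  | [], B, q, h => by simp [comb] at h
  | r :: rs, B, q, h => by
      rw [comb] at h
      by_cases hB : Nat.beq (B % 2) 1 = true
      · rw [hB, cond_true] at h
        have h' : (r ||| comb rs (B / 2)).testBit q = true := h
        rw [Nat.testBit_or, Bool.or_eq_true] at h'
        rcases h' with h1 | h1
        · refine ⟨0, ?_, by simpa using h1⟩
          rw [Nat.testBit_zero]
          have := Nat.eq_of_beq_eq_true hB
          simp [this]
        · obtain ⟨i, h2, h3⟩ := comb_testBit rs (B / 2) q h1
          exact ⟨i + 1, by rw [Nat.testBit_succ]; exact h2, by simpa using h3⟩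
      · have hB' : Nat.beq (B % 2) 1 = false := Bool.eq_false_iff.2 hB
        rw [hB', cond_false] at h
        obtain ⟨i, h2, h3⟩ := comb_testBit rs (B / 2) q h
        exact ⟨i + 1, by rw [Nat.testBit_succ]; exact h2, by simpa using h3⟩

lemma rowsOf_testBit (tb : List (List (List (ℕ × List (Fin 5))))) (A b q : ℕ)
    (h : ((rowsOf tb A).getD b 0).testBit q = true) :
    b < tb.length ∧ q < (tb.getD b []).length ∧
      ∃ e ∈ (tb.getD b []).getD q [], A.testBit e.1 = true := by
  unfold rowsOf at h
  by_cases hb : b < tb.length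
  · have h1 : (List.map (fun qs => mk (List.map (fun es => es.any fun e => A.testBit e.1) qs)) tb).getD
        b 0 = mk ((tb.getD b []).map fun es => es.any fun e => A.testBit e.1) := by
      rw [List.getD_eq_getElem _ _ (by simpa using hb), List.getElem_map,
        List.getD_eq_getElem _ _ hb]
    rw [h1] at h
    have h2 := mk_testBit _ _ h
    by_cases hq : q < (tb.getD b []).length
    · rw [List.getD_eq_getElem _ _ (by simpa using hq), List.getElem_map] at h2
      refine ⟨hb, hq, ?_⟩
      rw [List.getD_eq_getElem _ _ hq]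
      simpa [List.any_eq_true] using h2
    · rw [List.getD_eq_default _ _ (by simpa using hq)] at h2
      simp at h2
  · rw [List.getD_eq_default _ _ (by simpa using hb)] at h
    simp at h

lemma memB_mem : ∀ (l : List ℕ) (y : ℕ), memB l y = true → y ∈ l
  | [], y, h => by simp [memB] at h
  | a :: l, y, h => by
      rw [memB] at h
      by_cases ha : Nat.beq a y = true
      · rw [Nat.eq_of_beq_eq_true ha]
        simp
      · have ha' : Nat.beq a y = false := Bool.eq_false_iff.2 ha
        rw [ha', cond_false] at h
        exact List.mem_cons_of_mem _ (memB_mem l y h)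

lemma Tr_mem (k : ℕ) (l : List ℕ) : ∀ (r : Tr) (y : ℕ), trOK k l r = true → r.mem y = true → y ∈ l
  | .e, y, _, h => by simp [Tr.mem] at h
  | .n a x b, y, ho, h => by
      rw [trOK, Bool.and_eq_true, Bool.and_eq_true] at ho
      rw [Tr.mem] at h
      by_cases h1 : Nat.beq y x = true
      · rw [Nat.eq_of_beq_eq_true h1]
        exact memB_mem l x ho.1
      · have h1' : Nat.beq y x = false := Bool.eq_false_iff.2 h1
        rw [h1', cond_false] at h
        by_cases h2 : Nat.ble y x = true
        · rw [h2, cond_true] at h
          exact Tr_mem k l a y ho.2.1 h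
        · have h2' : Nat.ble y x = false := Bool.eq_false_iff.2 h2
          rw [h2', cond_false] at h
          exact Tr_mem k l b y ho.2.2 h

lemma anyL_spec (x : ℕ) : ∀ l : List ℕ, anyL x l = true → ∃ C ∈ l, ∀ q, C.testBit q = true →
    x.testBit q = true
  | [], h => by simp [anyL] at h
  | C :: l, h => by
      rw [anyL] at h
      by_cases h1 : Nat.beq (Nat.land C x) C = true
      · refine ⟨C, by simp, fun q hq => ?_⟩
        have h2 : C &&& x = C := Nat.eq_of_beq_eq_true h1
        rw [← h2, Nat.testBit_and, Bool.and_eq_true] at hq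
        exact hq.2
      · have h1' : Nat.beq (Nat.land C x) C = false := Bool.eq_false_iff.2 h1
        rw [h1', cond_false] at h
        obtain ⟨D, hD, h2⟩ := anyL_spec x l h
        exact ⟨D, List.mem_cons_of_mem _ hD, h2⟩

lemma anyT_spec (A : ℕ) (al : ℕ → Bool) : ∀ (t0 : ℕ) (l : List (List ℕ)),
    anyT A al t0 l = true → ∃ t, t < l.length ∧ al (t0 + t) = true ∧ swM (l.getD t []) A < A
  | _, [], h => by simp [anyT] at h
  | t0, tab :: l, h => by
      rw [anyT] at h
      by_cases h1 : (al t0 && Nat.blt (swM tab A) A) = true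
      · rw [Bool.and_eq_true] at h1
        refine ⟨0, by simp, by simpa using h1.1, ?_⟩
        have := h1.2
        rw [Nat.blt_eq] at this
        simpa using this
      · have h1' : (al t0 && Nat.blt (swM tab A) A) = false := Bool.eq_false_iff.2 h1
        rw [h1', cond_false] at h
        obtain ⟨t, h2, h3, h4⟩ := anyT_spec A al (t0 + 1) l h
        exact ⟨t + 1, by simpa using h2, by rw [← h3]; congr 1; omega, by simpa using h4⟩

end Pool.Agent.H293.CW
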