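import Mathlib
import Pool.Agent.H293.CW.Lists

set_option autoImplicit false
set_option linter.unusedSectionVars false

/-! Colourings of pieces of a multigraph, with the colours on the boundary prescribed. -/

namespace Pool.Agent.H293.CW

variable {V E : Type} [DecidableEq V] [Fintype E] [DecidableEq E]

/-- the edges with exactly one end in `X` -/
def cut (s t : E → V) (X : Finset V) : Finset E :=
  Finset.univ.filter fun e => ¬ (s e ∈ X ↔ t e ∈ X)

/-- `v` is an end of `e` -/
def At (s t : E → V) (v : V) (e : E) : Prop := s e = v ∨ t e = v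

/-- at the vertices of `X` different edges have different colours -/
def PropOn (s t : E → V) (c : E → Fin 5) (X : Finset V) : Prop :=
  ∀ v ∈ X, ∀ e f, At s t v e → At s t v f → c e = c f → e = f

def Ext (s t : E → V) (X : Finset V) (L : List E) (p : List (Fin 5)) : Prop :=
  ∃ c, PropOn s t c X ∧ L.map c = p

def St (s t : E → V) (k : ℕ) (X : Finset V) (L : List E) (M : ℕ) : Prop :=
  ∀ i, M.testBit i = true → Ext s t X L ((T k).getD i [])

variable {s t : E → V}

lemma mem_cut {X : Finset V} {e : E} : e ∈ cut s t X ↔ ¬ (s e ∈ X ↔ t e ∈ X) := by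
  simp [cut]

lemma Ext.same {X : Finset V} {L : List E} {p p' : List (Fin 5)} (h : Ext s t X L p)
    (hs : sameT p p' = true) : Ext s t X L p' := by
  obtain ⟨c, h1, rfl⟩ := h
  obtain ⟨σ, rfl⟩ := sameT_perm hs
  exact ⟨σ ∘ c, fun v hv e f he hf hef => h1 v hv e f he hf (σ.injective hef), by simp⟩

lemma St.swap {k : ℕ} (hk : swOK k = true) {X : Finset V} {L : List E} {M : ℕ}
    (h : St s t k X L M) {u : ℕ} (hu : u < k - 1) :
    St s t k X (swapAt u L) (swM ((sw k).getD u []) M) := by
  unfold swOK at hk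
  rw [Bool.and_eq_true] at hk
  obtain ⟨hk1, hk2⟩ := hk
  have h1 := (List.all_eq_true.1 hk2) u (List.mem_range.2 hu)
  rw [Bool.and_eq_true] at h1
  obtain ⟨h2, h3⟩ := h1
  have h2' : ((sw k).getD u []).length = (T k).length := by simpa using h2
  intro i hi
  obtain ⟨h4, h5⟩ := swM_testBit _ _ _ hi
  have h6 := (List.all_eq_true.1 h3) i (List.mem_range.2 (by rw [← h2']; exact h4))
  obtain ⟨c, hc1, hc2⟩ := h _ h5
  exact Ext.same ⟨c, hc1, by rw [swapAt_map, hc2]⟩ h6

lemma swapAt_length {α : Type} (u : ℕ) (L : List α) : (swapAt u L).length = L.length :=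
  (swapAt_perm u L).length_eq

/-- the data of a size `k` of the boundary, checked -/
structure Good (k : ℕ) : Prop where
  sw : swOK k = true
  orb : orbOK k = true
  tr : trOK k (Orb k) (tr k) = true

lemma Good.len {k : ℕ} (g : Good k) : (CW.sw k).length = k - 1 := by
  have := g.sw
  unfold swOK at this
  rw [Bool.and_eq_true] at this
  simpa using this.1

lemma Good.mem {k : ℕ} (g : Good k) {M : ℕ} (hM : M ∈ Orb k) {u : ℕ} (hu : u < k - 1) :
    swM ((CW.sw k).getD u []) M ∈ Orb k := by
  have h1 := (List.all_eq_true.1 ((List.all_eq_true.1 g.orb) M hM)) ((CW.sw k).getD u [])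
    (by
      rw [List.getD_eq_getElem _ _ (by rw [g.len]; exact hu)]
      exact List.getElem_mem _)
  exact Tr_mem k (Orb k) (CW.tr k) _ g.tr h1

lemma St.perm {k : ℕ} (g : Good k) {X : Finset V} {L L' : List E} (hL : L.length = k)
    (hp : L.Perm L') {M : ℕ} (hM : M ∈ Orb k) (h : St s t k X L M) :
    ∃ M' ∈ Orb k, St s t k X L' M' := by
  have h1 := perm_steps hp
  have h2 : L'.length = k ∧ ∃ M' ∈ Orb k, St s t k X L' M' := by
    clear hp
    induction h1 with
    | refl => exact ⟨hL, M, hM, h⟩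
    | tail _ hs ih =>
        obtain ⟨h3, M', hM', h4⟩ := ih
        obtain ⟨u, hu, rfl⟩ := hs
        rw [h3] at hu
        exact ⟨by rw [swapAt_length, h3], _, g.mem hM' (by omega), h4.swap g.sw (by omega)⟩
  exact h2.2

def StepAl {α : Type} (al : ℕ → Bool) (L L' : List α) : Prop :=
  ∃ u, al u = true ∧ u + 1 < L.length ∧ L' = swapAt u L

lemma St.reduce {k : ℕ} (g : Good k) {al : ℕ → Bool} {R : List ℕ} (hR : redOK k al R = true)
    {X : Finset V} : ∀ (M : ℕ) (L : List E), L.length = k → M ∈ Orb k → St s t k X L M →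
    ∃ M' ∈ R, ∃ L', Relation.ReflTransGen (StepAl al) L L' ∧ St s t k X L' M' := by
  intro M
  induction M using Nat.strong_induction_on with
  | _ M ih =>
    intro L hL hM h
    have h1 := (List.all_eq_true.1 hR) M hM
    rw [Bool.or_eq_true] at h1
    rcases h1 with h1 | h1
    · exact ⟨M, memB_mem _ _ h1, L, Relation.ReflTransGen.refl, h⟩
    · obtain ⟨u, hu, hal, hlt⟩ := anyT_spec _ _ _ _ h1
      rw [g.len] at hu
      rw [Nat.zero_add] at hal
      obtain ⟨M', hM', L', hL', h2⟩ := ih _ hlt (swapAt u L) (by rw [swapAt_length, hL])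
        (g.mem hM hu) (h.swap g.sw hu)
      exact ⟨M', hM', L', Relation.ReflTransGen.head ⟨u, hal, by omega, rfl⟩ hL', h2⟩

lemma blocks {α : Type} {n : ℕ} {A B L' : List α} (hA : A.length = n)
    (h : Relation.ReflTransGen (StepAl fun u => !(Nat.beq (u + 1) n)) (A ++ B) L') :
    ∃ A' B', L' = A' ++ B' ∧ A'.Perm A ∧ B'.Perm B := by
  induction h with
  | refl => exact ⟨A, B, rfl, List.Perm.refl _, List.Perm.refl _⟩
  | tail _ hs ih =>
      obtain ⟨A', B', rfl, hA', hB'⟩ := ih
      obtain ⟨u, hu, hu2, rfl⟩ := hs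
      have hl : A'.length = n := by rw [hA'.length_eq, hA]
      have hne : u + 1 ≠ n := by
        intro h1
        dsimp only at hu
        rw [h1] at hu
        simp at hu
      rcases lt_or_ge (u + 1) n with h1 | h1
      · exact ⟨swapAt u A', B', swapAt_append_left u A' B' (by omega),
          (swapAt_perm u A').trans hA', hB'⟩
      · exact ⟨A', swapAt (u - A'.length) B', swapAt_append_right u A' B' (by omega), hA',
          (swapAt_perm _ B').trans hB'⟩

lemma blocks' {α : Type} {n : ℕ} {A B L' : List α} (hA : A.length = n)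
    (h : Relation.ReflTransGen (StepAl fun u => Nat.ble n u) (A ++ B) L') :
    ∃ B', L' = A ++ B' ∧ B'.Perm B := by
  induction h with
  | refl => exact ⟨B, rfl, List.Perm.refl _⟩
  | tail _ hs ih =>
      obtain ⟨B', rfl, hB'⟩ := ih
      obtain ⟨u, hu, hu2, rfl⟩ := hs
      have h1 : n ≤ u := Nat.le_of_ble_eq_true hu
      exact ⟨swapAt (u - A.length) B', swapAt_append_right u A B' (by omega),
        (swapAt_perm _ B').trans hB'⟩

/-- colourings of two disjoint sets of vertices that agree on the edges in between -/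
lemma propOn_glue {X Y : Finset V} (hXY : Disjoint X Y) {c1 c2 : E → Fin 5}
    (h1 : PropOn s t c1 X) (h2 : PropOn s t c2 Y)
    (h : ∀ e ∈ cut s t X, e ∈ cut s t Y → c1 e = c2 e) :
    PropOn s t (fun e => if s e ∈ X ∨ t e ∈ X then c1 e else c2 e) (X ∪ Y) := by
  have key1 : ∀ v ∈ X, ∀ e, At s t v e → (if s e ∈ X ∨ t e ∈ X then c1 e else c2 e) = c1 e := by
    intro v hv e he
    rw [if_pos]
    rcases he with rfl | rfl
    · exact Or.inl hv
    · exact Or.inr hv
  have key2 : ∀ v ∈ Y, ∀ e, At s t v e → (if s e ∈ X ∨ t e ∈ X then c1 e else c2 e) = c2 e := by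
    intro v hv e he
    by_cases hX : s e ∈ X ∨ t e ∈ X
    · rw [if_pos hX]
      have hd : ∀ w, w ∈ X → w ∉ Y := fun w hw => Finset.disjoint_left.1 hXY hw
      apply h
      · rw [mem_cut]
        rcases he with rfl | rfl
        · intro h3
          rcases hX with h4 | h4
          · exact hd _ h4 hv
          · exact hd _ (h3.2 h4) hv
        · intro h3
          rcases hX with h4 | h4
          · exact hd _ (h3.1 h4) hv
          · exact hd _ h4 hv
      · rw [mem_cut]
        rcases he with rfl | rfl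
        · intro h3
          rcases hX with h4 | h4
          · exact hd _ h4 hv
          · exact hd _ h4 (h3.1 hv)
        · intro h3
          rcases hX with h4 | h4
          · exact hd _ h4 (h3.2 hv)
          · exact hd _ h4 hv
    · rw [if_neg hX]
  intro v hv e f he hf hef
  dsimp only at hef
  rcases Finset.mem_union.1 hv with hv | hv
  · rw [key1 v hv e he, key1 v hv f hf] at hef
    exact h1 v hv e f he hf hef
  · rw [key2 v hv e he, key2 v hv f hf] at hef
    exact h2 v hv e f he hf hef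

lemma St.glue {k l j : ℕ} {tb : List (List (List (ℕ × List (Fin 5))))}
    (htb : tbOK k l j tb = true) {X Y : Finset V} (hXY : Disjoint X Y) {O1 G O2 : List E}
    (hG : G.length = j) (hG' : ∀ e ∈ cut s t X, e ∈ cut s t Y → e ∈ G)
    (hO1 : ∀ e ∈ O1, e ∈ cut s t X) (hO2 : ∀ e ∈ O2, e ∈ cut s t Y ∧ e ∉ cut s t X)
    {A B : ℕ} (hA : St s t k X (O1 ++ G) A) (hB : St s t l Y (G ++ O2) B) {C : ℕ}
    (hC : ∀ q, C.testBit q = true → (comb (rowsOf tb A) B).testBit q = true) :
    St s t (k + l - 2 * j) (X ∪ Y) (O1 ++ O2) C := by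
  intro q hq
  obtain ⟨b, hb, h1⟩ := comb_testBit _ _ _ (hC q hq)
  obtain ⟨h2, h3, e, he, h4⟩ := rowsOf_testBit _ _ _ _ h1
  have h5 := (List.all_eq_true.1 ((List.all_eq_true.1 ((List.all_eq_true.1 htb) b
    (List.mem_range.2 h2))) q (List.mem_range.2 h3))) e he
  rw [Bool.and_eq_true, Bool.and_eq_true] at h5
  obtain ⟨h6, h7, h8⟩ := h5
  have h6' : e.2.length = j := by simpa using h6
  set P := (T (k + l - 2 * j)).getD q [] with hP
  obtain ⟨c1, hc1, hm1⟩ := (hA _ h4).same h7
  obtain ⟨c2, hc2, hm2⟩ := (hB _ hb).same h8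
  rw [List.map_append] at hm1 hm2
  have hg1 := List.append_inj' hm1 (by rw [List.length_map, hG, h6'])
  have hg2 := List.append_inj hm2 (by rw [List.length_map, hG, h6'])
  have hgg : ∀ e' ∈ G, c1 e' = c2 e' := by
    have : G.map c1 = G.map c2 := by rw [hg1.2, hg2.1]
    exact List.map_inj_left.1 this
  refine ⟨_, propOn_glue hXY hc1 hc2 (fun e' h9 h10 => hgg e' (hG' e' h9 h10)), ?_⟩
  rw [List.map_append]
  have hO1' : O1.map (fun e => if s e ∈ X ∨ t e ∈ X then c1 e else c2 e) = O1.map c1 := by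
    apply List.map_congr_left
    intro e' he'
    rw [if_pos]
    have := hO1 e' he'
    rw [mem_cut] at this
    tauto
  have hO2' : O2.map (fun e => if s e ∈ X ∨ t e ∈ X then c1 e else c2 e) = O2.map c2 := by
    apply List.map_congr_left
    intro e' he'
    rw [if_neg]
    obtain ⟨h9, h10⟩ := hO2 e' he'
    rw [mem_cut] at h9 h10
    have hd : ∀ w, w ∈ X → w ∉ Y := fun w hw => Finset.disjoint_left.1 hXY hw
    have := hd (s e')
    have := hd (t e')
    tauto
  rw [hO1', hO2', hg1.1, hg2.2, List.take_append_drop]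

def Inv (s t : E → V) (X : Finset V) : Prop :=
  ∀ L : List E, L.Nodup → L.toFinset = cut s t X → ∃ A ∈ Orb L.length, St s t L.length X L A

lemma cut_union {X Y : Finset V} (hXY : Disjoint X Y) {e : E} :
    e ∈ cut s t (X ∪ Y) ↔ (e ∈ cut s t X ∧ e ∉ cut s t Y) ∨ (e ∈ cut s t Y ∧ e ∉ cut s t X) := by
  have hd : ∀ w, w ∈ X → w ∉ Y := fun w hw => Finset.disjoint_left.1 hXY hw
  have h1 := hd (s e)
  have h2 := hd (t e)
  simp only [mem_cut, Finset.mem_union]
  tauto

lemma card_cut_union {X Y : Finset V} (hXY : Disjoint X Y) :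
    (cut s t (X ∪ Y)).card + 2 * (cut s t X ∩ cut s t Y).card =
      (cut s t X).card + (cut s t Y).card := by
  have h1 : cut s t (X ∪ Y) = (cut s t X \ cut s t Y) ∪ (cut s t Y \ cut s t X) := by
    ext e
    rw [cut_union hXY, Finset.mem_union, Finset.mem_sdiff, Finset.mem_sdiff]
  have h2 : Disjoint (cut s t X \ cut s t Y) (cut s t Y \ cut s t X) := by
    rw [Finset.disjoint_left]
    intro e he hf
    rw [Finset.mem_sdiff] at he hf
    exact he.2 hf.1
  rw [h1, Finset.card_union_of_disjoint h2]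
  have h3 := Finset.card_sdiff_add_card_inter (cut s t X) (cut s t Y)
  have h4 := Finset.card_sdiff_add_card_inter (cut s t Y) (cut s t X)
  rw [Finset.inter_comm (cut s t Y)] at h4
  omega

/-- one gluing type, checked -/
structure GType (k l j m : ℕ) (tb : List (List (List (ℕ × List (Fin 5)))))
    (RA : List (ℕ × List ℕ)) (RB : List ℕ) : Prop where
  eq : k + l - 2 * j = m
  le : j ≤ k
  gk : Good k
  gl : Good l
  gm : Good m
  htb : tbOK k l j tb = true
  ra : redOK k (fun u => !(Nat.beq (u + 1) (k - j))) (RA.map Prod.fst) = true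
  rb : redOK l (fun u => Nat.ble j u) RB = true
  pair : pairOK m tb RA RB = true

lemma node_of_type {k l j m : ℕ} {tb : List (List (List (ℕ × List (Fin 5))))}
    {RA : List (ℕ × List ℕ)} {RB : List ℕ} (g : GType k l j m tb RA RB) {X Y : Finset V}
    (hXY : Disjoint X Y) (hX : Inv s t X) (hY : Inv s t Y) (hk : (cut s t X).card = k)
    (hl : (cut s t Y).card = l) (hj : (cut s t X ∩ cut s t Y).card = j) :
    Inv s t (X ∪ Y) := by
  intro L hL hLe
  have hm : L.length = m := by
    have h1 := card_cut_union (s := s) (t := t) hXY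
    rw [← hLe, List.toFinset_card_of_nodup hL, hk, hl, hj] at h1
    have := g.eq
    omega
  have hmem : ∀ e, e ∈ L ↔ e ∈ cut s t (X ∪ Y) := fun e => by rw [← hLe, List.mem_toFinset]
  set G := (cut s t X ∩ cut s t Y).toList with hG
  set O1 := L.filter (fun e => decide (e ∈ cut s t X)) with hO1
  set O2 := L.filter (fun e => decide (¬ e ∈ cut s t X)) with hO2
  have hGn : G.Nodup := Finset.nodup_toList _
  have hGl : G.length = j := by rw [hG, Finset.length_toList, hj]
  have hGm : ∀ e, e ∈ G ↔ e ∈ cut s t X ∧ e ∈ cut s t Y := fun e => by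
    rw [hG, Finset.mem_toList, Finset.mem_inter]
  have hO1m : ∀ e, e ∈ O1 ↔ e ∈ cut s t X ∧ e ∉ cut s t Y := fun e => by
    rw [hO1, List.mem_filter, hmem, cut_union hXY, decide_eq_true_eq]
    tauto
  have hO2m : ∀ e, e ∈ O2 ↔ e ∈ cut s t Y ∧ e ∉ cut s t X := fun e => by
    rw [hO2, List.mem_filter, hmem, cut_union hXY, decide_eq_true_eq]
    tauto
  have hO1n : O1.Nodup := hL.filter _
  have hO2n : O2.Nodup := hL.filter _
  have hLp : (O1 ++ O2).Perm L := by
    rw [List.perm_ext_iff_of_nodup _ hL]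
    · intro e
      rw [List.mem_append, hO1m, hO2m, hmem, cut_union hXY]
    · rw [List.nodup_append]
      exact ⟨hO1n, hO2n, fun a ha b hb hab => by
        subst hab
        exact ((hO2m a).1 hb).2 ((hO1m a).1 ha).1⟩
  have hLXn : (O1 ++ G).Nodup := by
    rw [List.nodup_append]
    exact ⟨hO1n, hGn, fun a ha b hb hab => by
      subst hab
      exact ((hO1m a).1 ha).2 ((hGm a).1 hb).2⟩
  have hLXs : (O1 ++ G).toFinset = cut s t X := by
    ext e
    rw [List.mem_toFinset, List.mem_append, hO1m, hGm]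
    tauto
  have hLXl : (O1 ++ G).length = k := by
    rw [← List.toFinset_card_of_nodup hLXn, hLXs, hk]
  have hO1l : O1.length = k - j := by
    rw [List.length_append, hGl] at hLXl
    omega
  obtain ⟨A, hA, hSA⟩ := hX _ hLXn hLXs
  rw [hLXl] at hA hSA
  obtain ⟨A', hA', L1, hL1, hSA'⟩ := St.reduce g.gk g.ra A _ hLXl hA hSA
  obtain ⟨O1', G', rfl, hO1', hG'⟩ := blocks hO1l hL1
  have hLYn : (G' ++ O2).Nodup := by
    rw [List.nodup_append]
    exact ⟨hG'.nodup_iff.2 hGn, hO2n, fun a ha b hb hab => by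
      subst hab
      exact ((hO2m a).1 hb).2 ((hGm a).1 (hG'.mem_iff.1 ha)).1⟩
  have hLYs : (G' ++ O2).toFinset = cut s t Y := by
    ext e
    rw [List.mem_toFinset, List.mem_append, hG'.mem_iff, hO2m, hGm]
    tauto
  have hLYl : (G' ++ O2).length = l := by
    rw [← List.toFinset_card_of_nodup hLYn, hLYs, hl]
  obtain ⟨B, hB, hSB⟩ := hY _ hLYn hLYs
  rw [hLYl] at hB hSB
  have hG'l : G'.length = j := by rw [hG'.length_eq, hGl]
  obtain ⟨B', hB', L2, hL2, hSB'⟩ := St.reduce g.gl g.rb B _ hLYl hB hSB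
  obtain ⟨O2', rfl, hO2'⟩ := blocks' hG'l hL2
  obtain ⟨AR, hAR, hARe⟩ := List.mem_map.1 hA'
  have h1 := (List.all_eq_true.1 g.pair) AR hAR
  rw [Bool.and_eq_true] at h1
  obtain ⟨h2, h3⟩ := h1
  have h2' : rowsOf tb AR.1 = AR.2 := by simpa using h2
  have h4 := (List.all_eq_true.1 h3) B' hB'
  obtain ⟨C, hC, hC'⟩ := anyL_spec _ _ h4
  rw [← h2', hARe] at hC'
  have h5 := St.glue g.htb hXY hG'l (fun e he hf => hG'.mem_iff.2 ((hGm e).2 ⟨he, hf⟩))
    (fun e he => ((hO1m e).1 (hO1'.mem_iff.1 he)).1)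
    (fun e he => (hO2m e).1 (hO2'.mem_iff.1 he)) hSA' hSB' hC'
  rw [g.eq] at h5
  have h6 : (O1' ++ O2').Perm L := (hO1'.append hO2').trans hLp
  rw [hm]
  exact St.perm g.gm (by rw [h6.length_eq, hm]) h6 hC h5

end Pool.Agent.H293.CW
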