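import Mathlib
import Pool.Agent.H293.CW.Graph

set_option autoImplicit false
set_option linter.unusedSectionVars false

/-! Carvings with cuts of size 5, 6 and 7: leaves, inner nodes and the root. -/

namespace Pool.Agent.H293.CW

lemma good5 : Good 5 := ⟨swOK5, orbOK5, trOK5⟩
lemma good6 : Good 6 := ⟨swOK6, orbOK6, trOK6⟩
lemma good7 : Good 7 := ⟨swOK7, orbOK7, trOK7⟩

lemma gt552 : GType 5 5 2 6 tb552 ra552 rb52 :=
  ⟨rfl, by norm_num, good5, good5, good6, tbOK552, redOK552, redOKb52, pairOK552⟩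
lemma gt562 : GType 5 6 2 7 tb562 ra562 rb62 :=
  ⟨rfl, by norm_num, good5, good6, good7, tbOK562, redOK562, redOKb62, pairOK562⟩
lemma gt563 : GType 5 6 3 5 tb563 ra563 rb63 :=
  ⟨rfl, by norm_num, good5, good6, good5, tbOK563, redOK563, redOKb63, pairOK563⟩
lemma gt573 : GType 5 7 3 6 tb573 ra573 rb73 :=
  ⟨rfl, by norm_num, good5, good7, good6, tbOK573, redOK573, redOKb73, pairOK573⟩
lemma gt663 : GType 6 6 3 6 tb663 ra663 rb63 :=
  ⟨rfl, by norm_num, good6, good6, good6, tbOK663, redOK663, redOKb63, pairOK663⟩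
lemma gt673 : GType 6 7 3 7 tb673 ra673 rb73 :=
  ⟨rfl, by norm_num, good6, good7, good7, tbOK673, redOK673, redOKb73, pairOK673⟩
lemma gt674 : GType 6 7 4 5 tb674 ra674 rb74 :=
  ⟨rfl, by norm_num, good6, good7, good5, tbOK674, redOK674, redOKb74, pairOK674⟩
lemma gt774 : GType 7 7 4 6 tb774 ra774 rb74 :=
  ⟨rfl, by norm_num, good7, good7, good6, tbOK774, redOK774, redOKb74, pairOK774⟩

variable {V E : Type} [DecidableEq V] [Fintype E] [DecidableEq E] {s t : E → V}

/-- the sizes allowed -/
def Sz (n : ℕ) : Prop := n = 5 ∨ n = 6 ∨ n = 7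

lemma node_aux {X Y : Finset V} (hXY : Disjoint X Y) (hX : Inv s t X) (hY : Inv s t Y)
    (sX : Sz (cut s t X).card) (sY : Sz (cut s t Y).card) (sZ : Sz (cut s t (X ∪ Y)).card)
    (hle : (cut s t X).card ≤ (cut s t Y).card) : Inv s t (X ∪ Y) := by
  have h1 := card_cut_union (s := s) (t := t) hXY
  unfold Sz at sX sY sZ
  rcases sX with hx | hx | hx <;> rcases sY with hy | hy | hy <;> rcases sZ with hz | hz | hz <;>
    first
    | (exfalso; omega)
    | exact node_of_type gt552 hXY hX hY hx hy (by omega)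
    | exact node_of_type gt562 hXY hX hY hx hy (by omega)
    | exact node_of_type gt563 hXY hX hY hx hy (by omega)
    | exact node_of_type gt573 hXY hX hY hx hy (by omega)
    | exact node_of_type gt663 hXY hX hY hx hy (by omega)
    | exact node_of_type gt673 hXY hX hY hx hy (by omega)
    | exact node_of_type gt674 hXY hX hY hx hy (by omega)
    | exact node_of_type gt774 hXY hX hY hx hy (by omega)

lemma node {X Y : Finset V} (hXY : Disjoint X Y) (hX : Inv s t X) (hY : Inv s t Y)
    (sX : Sz (cut s t X).card) (sY : Sz (cut s t Y).card) (sZ : Sz (cut s t (X ∪ Y)).card) :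
    Inv s t (X ∪ Y) := by
  rcases le_total (cut s t X).card (cut s t Y).card with h | h
  · exact node_aux hXY hX hY sX sY sZ h
  · rw [Finset.union_comm] at sZ ⊢
    exact node_aux hXY.symm hY hX sY sX sZ h

lemma cut_singleton (hloop : ∀ e, s e ≠ t e) (v : V) (e : E) :
    e ∈ cut s t {v} ↔ At s t v e := by
  rw [mem_cut, Finset.mem_singleton, Finset.mem_singleton]
  unfold At
  have := hloop e
  constructor
  · intro h
    by_contra h2
    push Not at h2
    exact h ⟨fun h3 => absurd h3 h2.1, fun h3 => absurd h3 h2.2⟩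
  · rintro (h | h) h3
    · exact this (h.trans (h3.1 h).symm)
    · exact this ((h3.2 h).trans h.symm)

lemma leaf (hloop : ∀ e, s e ≠ t e) (v : V) (h5 : (cut s t {v}).card = 5) :
    Inv s t {v} := by
  intro L hL hLe
  have hl : L.length = 5 := by rw [← List.toFinset_card_of_nodup hL, hLe, h5]
  rw [hl]
  refine ⟨1, by decide, ?_⟩
  intro i hi
  have hi0 : i = 0 := by
    by_contra h
    rw [Nat.testBit_one_eq_true_iff_self_eq_zero] at hi
    exact h hi
  subst hi0
  have hmem : ∀ e, e ∈ L ↔ At s t v e := fun e => by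
    rw [← cut_singleton hloop v e, ← hLe, List.mem_toFinset]
  refine ⟨fun e => Fin.ofNat 5 (L.idxOf e), ?_, ?_⟩
  · intro w hw e f he hf hef
    rw [Finset.mem_singleton] at hw
    subst hw
    have h1 := (hmem e).2 he
    have h2 := (hmem f).2 hf
    have h3 : L.idxOf e < 5 := by rw [← hl]; exact List.idxOf_lt_length_iff.2 h1
    have h4 : L.idxOf f < 5 := by rw [← hl]; exact List.idxOf_lt_length_iff.2 h2
    have h5 : L.idxOf e = L.idxOf f := by
      have := congrArg Fin.val hef
      simp only [Fin.ofNat] at this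
      omega
    exact (List.idxOf_inj h1).1 h5
  · have h1 : (T 5).getD 0 [] = [0, 1, 2, 3, 4] := by decide
    rw [h1]
    apply List.ext_getElem
    · simp [hl]
    · intro i hi1 hi2
      rw [List.getElem_map, List.Nodup.idxOf_getElem hL]
      have : i < 5 := by simpa [hl] using hi1
      interval_cases i <;> rfl

lemma root_aux {k : ℕ} (g : Good k) {R : List ℕ} (hR : redOK k (fun u => !(Nat.beq (u + 1) 0)) R = true)
    (hc : closedOK k R = true) {X Y : Finset V} (hXY : Disjoint X Y)
    (hcov : ∀ v, v ∈ X ∪ Y) (hX : Inv s t X) (hY : Inv s t Y)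
    (hk : (cut s t X).card = k) :
    ∃ c : E → Fin 5, ∀ v, ∀ e f, At s t v e → At s t v f → c e = c f → e = f := by
  have hcut : cut s t Y = cut s t X := by
    ext e
    have hd : ∀ w, w ∈ X → w ∉ Y := fun w hw => Finset.disjoint_left.1 hXY hw
    have h1 := hd (s e)
    have h2 := hd (t e)
    have h3 := Finset.mem_union.1 (hcov (s e))
    have h4 := Finset.mem_union.1 (hcov (t e))
    rw [mem_cut, mem_cut]
    tauto
  set L := (cut s t X).toList with hLdef
  have hLn : L.Nodup := Finset.nodup_toList _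
  have hLl : L.length = k := by rw [hLdef, Finset.length_toList, hk]
  have hLs : L.toFinset = cut s t X := by rw [hLdef, Finset.toList_toFinset]
  obtain ⟨A, hA, hSA⟩ := hX L hLn hLs
  rw [hLl] at hA hSA
  obtain ⟨A', hA', L', hL', hSA'⟩ := St.reduce g hR A L hLl hA hSA
  obtain ⟨L1, L2, rfl, h1, h2⟩ := blocks (A := []) (B := L) (n := 0) rfl hL'
  have h1' : L1 = [] := List.Perm.eq_nil h1
  subst h1'
  rw [List.nil_append] at hSA'
  obtain ⟨B, hB, hSB⟩ := hY L2 (h2.nodup_iff.2 hLn) (by
    rw [hcut, ← hLs]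
    ext e
    rw [List.mem_toFinset, List.mem_toFinset, h2.mem_iff])
  rw [show L2.length = k by rw [h2.length_eq, hLl]] at hB hSB
  have h3 := (List.all_eq_true.1 ((List.all_eq_true.1 hc) A' hA')) B hB
  have h4 : A' &&& B ≠ 0 := by
    intro h5
    have h6 : Nat.beq (Nat.land A' B) 0 = true := by
      have : Nat.land A' B = 0 := h5
      rw [this]
      rfl
    rw [h6] at h3
    simp at h3
  obtain ⟨i, hi⟩ := Nat.exists_testBit_of_ne_zero h4
  rw [Nat.testBit_and, Bool.and_eq_true] at hi
  obtain ⟨c1, hc1, hm1⟩ := hSA' i hi.1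
  obtain ⟨c2, hc2, hm2⟩ := hSB i hi.2
  have hgg : ∀ e ∈ L2, c1 e = c2 e := List.map_inj_left.1 (hm1.trans hm2.symm)
  refine ⟨_, fun v => propOn_glue hXY hc1 hc2 (fun e he _ => hgg e ?_) v (hcov v)⟩
  rw [h2.mem_iff, hLdef, Finset.mem_toList]
  exact he

lemma root {X Y : Finset V} (hXY : Disjoint X Y) (hcov : ∀ v, v ∈ X ∪ Y) (hX : Inv s t X)
    (hY : Inv s t Y) (sX : Sz (cut s t X).card) :
    ∃ c : E → Fin 5, ∀ v, ∀ e f, At s t v e → At s t v f → c e = c f → e = f := by
  rcases sX with h | h | h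
  · exact root_aux good5 redOKc5 closedOK5 hXY hcov hX hY h
  · exact root_aux good6 redOKc6 closedOK6 hXY hcov hX hY h
  · exact root_aux good7 redOKc7 closedOK7 hXY hcov hX hY h

end Pool.Agent.H293.CW
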